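import Pool.Agent.Helper52.NF.St

set_option autoImplicit false

/-! Project NF (MP_dd34a0_co), module S0. -/

namespace Pool.Agent.Helper95.NF

open Pool.Agent.Helper52.NF Finset

theorem hS0 : StS0 := by
  intro ε N _ _ α β E J P u v hC hM P' hP' h0
  obtain ⟨hPE, ⟨huv, hbd⟩, -, hmin⟩ := hM
  have h1 : IsP α β (P \ P') u v :=
    ⟨huv, fun x => by rw [bd_sdiff α β hP', h0, add_zero, hbd]⟩
  have h2 := hmin (P \ P') (Finset.sdiff_subset.trans hPE) u v h1
  have h3 := wt_sdiff J hP'
  have h4 := hC.2 P' (hP'.trans hPE) h0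
  have h5 : P.card ≤ (P \ P').card := by
    rcases h2 with h2 | h2
    · omega
    · exact h2.2
  have h6 := Finset.card_sdiff_add_card_eq_card hP'
  exact Finset.card_eq_zero.1 (by omega)

end Pool.Agent.Helper95.NF
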